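import Pool.Agent.Helper868.DHJ

/-!
Line-free sets with blocks of coordinates whose words have few types.
-/

set_option autoImplicit false

namespace Pool.Agent.R756.TD

open Finset hiding dens
open Pool.Agent.Helper868.DHJ

section

variable {ι β T : Type} [Fintype ι] [DecidableEq ι] [Fintype β] [Nonempty β]

/-- change the coordinates in `p` -/
def repl (p : ι → Prop) [DecidablePred p] (u : {i // p i} → β) (x : ι → β) : ι → β :=
  fun i => if h : p i then u ⟨i, h⟩ else x i

omit [Fintype ι] [DecidableEq ι] [Fintype β] [Nonempty β] in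
lemma glue_eq (p : ι → Prop) [DecidablePred p] (u : {i // p i} → β) (y : {i // ¬ p i} → β)
    (x : ι → β) (hx : ∀ i : {i // ¬ p i}, x i.1 = y i) :
    glue p u y = repl p u x := by
  funext i
  unfold glue repl
  by_cases h : p i
  · simp only [h, dif_pos]
  · simp only [h, not_false_eq_true, dif_neg]
    exact (hx ⟨i, h⟩).symm

/-- the words whose type (with respect to the block `p`) has no line -/
def Good (p : ι → Prop) [DecidablePred p] (τ : (ι → β) → T) : Set (ι → β) :=
  {x | LineFree {u : {i // p i} → β | τ (repl p u x) = τ x}}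

/-- the function depends only on the coordinates in `p` -/
def LocalP {Y : Type} (p : ι → Prop) (f : (ι → β) → Y) : Prop :=
  ∀ x y : ι → β, (∀ i, p i → x i = y i) → f x = f y

omit [Fintype ι] [DecidableEq ι] [Fintype β] [Nonempty β] in
lemma good_local (p : ι → Prop) [DecidablePred p] (τ : (ι → β) → T) (hτ : LocalP p τ) :
    LocalP p (fun x => x ∈ Good p τ) := by
  intro x y hxy
  have h1 : τ x = τ y := hτ x y hxy
  have h2 : ∀ u : {i // p i} → β, τ (repl p u x) = τ (repl p u y) := by
    intro u
    apply hτ
    intro i hi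
    simp [repl, hi]
  unfold Good
  simp only [Set.mem_ofPred_eq, h1, h2]

omit [Nonempty β] in
lemma dens_good_aux {κ : Type} [Fintype κ] [DecidableEq κ] [Fintype T] {η : ℝ} (hη : 0 < η)
    (h : ∀ C : Set (κ → β), LineFree C → dens C < η) (τ : (κ → β) → T) :
    dens {t : κ → β | LineFree {u : κ → β | τ u = τ t}} ≤ Fintype.card T * η := by
  classical
  calc dens {t : κ → β | LineFree {u : κ → β | τ u = τ t}}
      ≤ av (fun t : κ → β => ∑ k : T,
          ind {t : κ → β | τ t = k ∧ LineFree {u : κ → β | τ u = k}} t) := by
        refine av_mono fun t => ?_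
        by_cases ht : t ∈ {t : κ → β | LineFree {u : κ → β | τ u = τ t}}
        · refine (ind_le_one _ _).trans ?_
          calc (1:ℝ) = ind {s : κ → β | τ s = τ t ∧ LineFree {u : κ → β | τ u = τ t}} t :=
                (ind_mem (A := {s : κ → β | τ s = τ t ∧ LineFree {u : κ → β | τ u = τ t}})
                  ⟨rfl, ht⟩).symm
            _ ≤ _ := Finset.single_le_sum
                (f := fun k => ind {t : κ → β | τ t = k ∧ LineFree {u : κ → β | τ u = k}} t)
                (fun r _ => ind_nonneg _ _) (Finset.mem_univ (τ t))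
        · rw [ind_not_mem ht]
          exact Finset.sum_nonneg fun r _ => ind_nonneg _ _
    _ = ∑ k : T, dens {t : κ → β | τ t = k ∧ LineFree {u : κ → β | τ u = k}} := av_sum _ _
    _ ≤ ∑ _k : T, η := by
        refine Finset.sum_le_sum fun k _ => ?_
        by_cases hk : LineFree {u : κ → β | τ u = k}
        · have h1 : dens {t : κ → β | τ t = k ∧ LineFree {u : κ → β | τ u = k}} ≤
              dens {u : κ → β | τ u = k} := av_mono fun x => ind_mono fun h => h.1
          exact h1.trans (h _ hk).le
        · have h1 : {t : κ → β | τ t = k ∧ LineFree {u : κ → β | τ u = k}} = ∅ := by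
            ext t
            simp [hk]
          have h2 : dens {t : κ → β | τ t = k ∧ LineFree {u : κ → β | τ u = k}} = 0 := by
            rw [h1]
            unfold dens
            rw [av_eq_sum]
            simp [ind]
          rw [h2]
          exact hη.le
    _ = Fintype.card T * η := by simp

lemma dens_good [Fintype T] {N : ℕ} {η : ℝ} (hη : 0 < η)
    (hN : ∀ (κ : Type) [Fintype κ] [DecidableEq κ], N ≤ Fintype.card κ →
      ∀ C : Set (κ → β), LineFree C → dens C < η)
    (p : ι → Prop) [DecidablePred p] (hB : N ≤ Fintype.card {i // p i}) (τ : (ι → β) → T) :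
    dens (Good p τ) ≤ Fintype.card T * η := by
  classical
  unfold dens
  rw [av_glue p]
  refine le_trans (av_mono (g := fun _ => Fintype.card T * η) fun y => ?_) (le_of_eq ?_)
  · let x0 : ι → β := fun i => if h : p i then Classical.arbitrary β else y ⟨i, h⟩
    have hx0 : ∀ i : {i // ¬ p i}, x0 i.1 = y i := by
      rintro ⟨i, hi⟩
      simp [x0, hi]
    have h1 : ∀ t : {i // p i} → β, glue p t y = repl p t x0 :=
      fun t => glue_eq p t y x0 hx0
    have h2 := dens_good_aux (T := T) hη (hN {i // p i} hB) (fun u => τ (repl p u x0))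
    refine le_trans (le_of_eq ?_) h2
    unfold dens
    congr 1
    funext t
    apply ind_congr
    rw [h1 t]
    unfold Good
    simp only [Set.mem_ofPred_eq]
    have h3 : ∀ u : {i // p i} → β, repl p u (repl p t x0) = repl p u x0 := by
      intro u
      funext i
      unfold repl
      by_cases hi : p i <;> simp [hi]
    simp only [h3]
  · rw [av_const]

lemma dens_inter (p : ι → Prop) [DecidablePred p] (G H : Set (ι → β))
    (hG : LocalP p (fun x => x ∈ G))
    (hH : LocalP (fun i => ¬ p i) (fun x => x ∈ H)) : dens (G ∩ H) = dens G * dens H := by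
  classical
  obtain ⟨b0⟩ := ‹Nonempty β›
  let y0 : {i // ¬ p i} → β := fun _ => b0
  let t0 : {i // p i} → β := fun _ => b0
  have e1 : ∀ (t : {i // p i} → β) (y : {i // ¬ p i} → β),
      ind G (glue p t y) = ind G (glue p t y0) := by
    intro t y
    apply ind_congr
    have := hG (glue p t y) (glue p t y0) (by
      intro i hi
      simp [glue, hi])
    simpa using this
  have e2 : ∀ (t : {i // p i} → β) (y : {i // ¬ p i} → β),
      ind H (glue p t y) = ind H (glue p t0 y) := by
    intro t y
    apply ind_congr
    have := hH (glue p t y) (glue p t0 y) (by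
      intro i hi
      simp [glue, hi])
    simpa using this
  have e3 : ∀ x, ind (G ∩ H) x = ind G x * ind H x := by
    intro x
    by_cases h1 : x ∈ G <;> by_cases h2 : x ∈ H <;> simp [ind, h1, h2]
  have hGd : dens G = av (fun t : {i // p i} → β => ind G (glue p t y0)) := by
    unfold dens
    rw [av_glue p]
    simp_rw [e1]
    have : Nonempty ({i // ¬ p i} → β) := ⟨y0⟩
    rw [av_const]
  have hHd : dens H = av (fun y : {i // ¬ p i} → β => ind H (glue p t0 y)) := by
    unfold dens
    rw [av_glue p]
    congr 1
    funext y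
    simp_rw [e2]
    have : Nonempty ({i // p i} → β) := ⟨t0⟩
    rw [av_const]
  have : dens (G ∩ H) = av (fun y : {i // ¬ p i} → β => av (fun t : {i // p i} → β =>
      ind G (glue p t y0) * ind H (glue p t0 y))) := by
    unfold dens
    rw [av_glue p]
    congr 1
    funext y
    congr 1
    funext t
    rw [e3, e1, e2]
  rw [this, hGd, hHd]
  simp_rw [av_mul_const]
  rw [av_const_mul]

omit [Fintype ι] [DecidableEq ι] [Fintype β] [Nonempty β] in
/-- the words of a line-free set are good with respect to every block -/
lemma mem_good (p : ι → Prop) [DecidablePred p] (τ : (ι → β) → T) (A : Set (ι → β))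
    (hA : LineFree A)
    (hc : ∀ x y : ι → β, x ∈ A → (∀ i, ¬ p i → x i = y i) → τ x = τ y → y ∈ A)
    (x : ι → β) (hx : x ∈ A) : x ∈ Good p τ := by
  intro u hu
  by_contra hcon
  push Not at hcon
  obtain ⟨⟨i0, hi0⟩, hi⟩ := hu
  obtain ⟨b, hb⟩ := hA (fun i => if h : p i then u ⟨i, h⟩ else some (x i)) ⟨i0, by simp [hi0, hi]⟩
  apply hb
  have h1 : pt (fun i => if h : p i then u ⟨i, h⟩ else some (x i)) b = repl p (pt u b) x := by
    funext i
    unfold pt repl
    by_cases h : p i <;> simp [h]
  rw [h1]
  refine hc x _ hx ?_ (hcon b).symm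
  intro i hi
  simp [repl, hi]

end

end Pool.Agent.R756.TD
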