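import Pool.Agent.R756.TD.Tree

/-!
Exponentially small density of the line-free sets decided by tree-like devices with few messages.
-/

set_option autoImplicit false

namespace Pool.Agent.R756.TD

open Finset hiding dens
open Pool.Agent.Helper868.DHJ

section

variable {ι α : Type} [Fintype ι] [DecidableEq ι] [Fintype α] [Nonempty α]

lemma list_dens {T : Type} [Fintype T] {N : ℕ} {η : ℝ} (hη : 0 < η)
    (hT : Fintype.card T * η ≤ 1 / 2)
    (hN : ∀ (κ : Type) [Fintype κ] [DecidableEq κ], N ≤ Fintype.card κ →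
      ∀ C : Set (κ → α), LineFree C → dens C < η)
    (L : List (Finset ι × ((ι → α) → T)))
    (hbig : ∀ p ∈ L, N ≤ p.1.card) (hloc : ∀ p ∈ L, Local p.1 p.2)
    (hpw : L.Pairwise (fun p q => Disjoint p.1 q.1)) :
    dens {x : ι → α | ∀ p ∈ L, x ∈ Good (fun i => i ∈ p.1) p.2} ≤ (1 / 2) ^ L.length := by
  induction L with
  | nil =>
    simpa using dens_le_one _
  | cons q L ih =>
    rw [List.pairwise_cons] at hpw
    have ih' := ih (fun p hp => hbig p (List.mem_cons_of_mem _ hp))
      (fun p hp => hloc p (List.mem_cons_of_mem _ hp)) hpw.2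
    have e : {x : ι → α | ∀ p ∈ q :: L, x ∈ Good (fun i => i ∈ p.1) p.2} =
        Good (fun i => i ∈ q.1) q.2 ∩ {x : ι → α | ∀ p ∈ L, x ∈ Good (fun i => i ∈ p.1) p.2} := by
      ext x
      simp
    rw [e, dens_inter (fun i => i ∈ q.1)]
    · have h1 : dens (Good (fun i => i ∈ q.1) q.2) ≤ 1 / 2 := by
        refine le_trans (dens_good hη hN (fun i => i ∈ q.1) ?_ q.2) hT
        have := hbig q List.mem_cons_self
        rw [Fintype.card_subtype]
        simpa using this
      rw [List.length_cons, pow_succ, mul_comm]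
      exact mul_le_mul ih' h1 (dens_nonneg _) (by positivity)
    · exact good_local _ _ fun x y hxy => hloc q List.mem_cons_self x y hxy
    · intro x y hxy
      simp only [Set.mem_ofPred_eq, eq_iff_iff]
      refine forall₂_congr fun p hp => ?_
      have h2 := good_local (fun i => i ∈ p.1) p.2 (fun x y hxy => hloc p
        (List.mem_cons_of_mem _ hp) x y hxy) x y (by
          intro i hi
          apply hxy
          intro hiq
          exact Finset.disjoint_left.1 (hpw.1 p hp) hiq hi)
      simpa using h2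

end

/-- For all alphabets `α` and all `w` there is `m` such that the line-free sets which are decided by
a tree-like device with at most `w` messages reading `v` coordinates once have density at most
`2 ^ (-s)`, `v ≤ 4 m s + m`. -/
theorem tree_bound (α : Type) [Fintype α] [Nonempty α] (w : ℕ) :
    ∃ m : ℕ, 2 ≤ m ∧ ∀ (R : Type) [Fintype R], Fintype.card R ≤ w →
      ∀ (ι : Type) [Fintype ι] [DecidableEq ι] (D : Dev ι α R), D.ReadOnce →
      ∀ (Acc : Set R) (A : Set (ι → α)), (∀ x, x ∈ A ↔ D.eval x ∈ Acc) → LineFree A →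
      ∃ s : ℕ, D.vars.card ≤ 4 * m * s + m ∧ dens A ≤ (1 / 2) ^ s := by
  set K : ℕ := (w + 1) ^ (w + 1) with hK
  have hKpos : (0 : ℝ) < K := by
    rw [hK]
    positivity
  obtain ⟨N, hN⟩ := density_hales_jewett α (1 / (2 * K)) (by positivity)
  refine ⟨max 2 N, le_max_left _ _, ?_⟩
  intro R _ hR ι _ _ D hD Acc A hA hfree
  classical
  obtain ⟨L, O, b, j, h⟩ := blocks (le_max_left 2 N) D hD
  generalize hm : max 2 N = m at *
  refine ⟨L.length, ?_, ?_⟩
  · have h1 := h.count
    have h2 := h.marks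
    have h3 := h.ocard
    have h4 : 2 * m * (L.length + b) ≤ 2 * m * (2 * L.length) :=
      Nat.mul_le_mul_left _ (by omega)
    have h5 : 2 * m * (2 * L.length) = 4 * m * L.length := by ring
    omega
  · have hT : (Fintype.card (R → R) : ℝ) * (1 / (2 * K)) ≤ 1 / 2 := by
      have h1 : Fintype.card (R → R) ≤ K := by
        rw [Fintype.card_fun, hK]
        exact (Nat.pow_le_pow_left (by omega) _).trans (Nat.pow_le_pow_right (by omega) (by omega))
      have h2 : (Fintype.card (R → R) : ℝ) ≤ K := by exact_mod_cast h1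
      rw [mul_one_div, div_le_div_iff₀ (by positivity) (by norm_num)]
      linarith
    have h1 := list_dens (α := α) (ι := ι) (T := R → R) (N := N) (η := 1 / (2 * (K : ℝ)))
      (by positivity) hT
      (fun κ _ _ hκ C hC => hN κ hκ C hC) L
      (fun p hp => ((le_max_right 2 N).trans hm.le).trans (h.big p hp))
      h.loc h.pw
    refine le_trans ?_ h1
    refine av_mono fun x => ind_mono fun hx => ?_
    intro p hp
    refine mem_good (fun i => i ∈ p.1) p.2 A hfree ?_ x hx
    intro x y hx hxy hτ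
    rw [hA] at hx ⊢
    rw [← h.clo p hp x y hxy hτ]
    exact hx

lemma dens_lt_of_lineFree {α ι : Type} [Fintype α] [Nonempty α] [Fintype ι] [DecidableEq ι]
    [Nonempty ι] (A : Set (ι → α)) (h : LineFree A) :
    dens A ≤ 1 - 1 / (Fintype.card α : ℝ) ^ (Fintype.card ι) := by
  classical
  obtain ⟨i0⟩ := ‹Nonempty ι›
  obtain ⟨b, hb⟩ := h (fun _ => none) ⟨i0, rfl⟩
  have hcard : (Fintype.card (ι → α) : ℝ) = (Fintype.card α : ℝ) ^ (Fintype.card ι) := by
    rw [Fintype.card_fun]
    push_cast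
    rfl
  have hpos : (0 : ℝ) < (Fintype.card α : ℝ) ^ (Fintype.card ι) := by
    have : 0 < Fintype.card α := Fintype.card_pos
    positivity
  unfold dens
  rw [av_eq_sum, hcard, div_le_iff₀ hpos, sub_mul, one_mul, one_div_mul_cancel hpos.ne', ← hcard]
  have h1 : ∑ x, ind A x + 1 ≤ ∑ _x : ι → α, (1 : ℝ) := by
    rw [← Finset.add_sum_erase _ _ (Finset.mem_univ (pt (fun _ => none) b)),
      ← Finset.add_sum_erase _ (fun _ => (1 : ℝ)) (Finset.mem_univ (pt (fun _ => none) b))]
    rw [ind_not_mem hb]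
    have := Finset.sum_le_sum (s := Finset.univ.erase (pt (fun _ => none) b))
      (f := ind A) (g := fun _ => (1 : ℝ)) (fun x _ => ind_le_one A x)
    linarith
  rw [Finset.sum_const, nsmul_eq_mul, mul_one, Finset.card_univ] at h1
  linarith

/-- The exponential bound. -/
theorem exp_bound (α : Type) [Fintype α] (hα : 2 ≤ Fintype.card α) (w : ℕ) :
    ∃ ρ : ℝ, 0 < ρ ∧ ρ < 1 ∧ ∀ (R : Type) [Fintype R], Fintype.card R ≤ w →
      ∀ (ι : Type) [Fintype ι] [DecidableEq ι] (D : Dev ι α R), D.ReadOnce → D.vars = univ →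
      ∀ (Acc : Set R) (A : Set (ι → α)), (∀ x, x ∈ A ↔ D.eval x ∈ Acc) → LineFree A →
      dens A ≤ ρ ^ (Fintype.card ι) := by
  have : Nonempty α := Fintype.card_pos_iff.1 (by omega)
  obtain ⟨m, hm, h⟩ := tree_bound α w
  set q : ℝ := (Fintype.card α : ℝ) with hq
  have hq2 : (2 : ℝ) ≤ q := by rw [hq]; exact_mod_cast hα
  set θ : ℝ := 1 - 1 / q ^ (2 * m) with hθ
  have hqm : (2 : ℝ) ≤ q ^ (2 * m) := by
    calc (2 : ℝ) ≤ q ^ 1 := by rw [pow_one]; exact hq2
      _ ≤ q ^ (2 * m) := pow_le_pow_right₀ (by linarith) (by omega)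
  have hθ0 : 0 < θ := by
    rw [hθ, sub_pos, div_lt_one (by positivity)]
    linarith
  have hθ1 : θ < 1 := by
    rw [hθ]
    have : 0 < 1 / q ^ (2 * m) := by positivity
    linarith
  have hmR : (0 : ℝ) < m := by exact_mod_cast (by omega : 0 < m)
  set ρ1 : ℝ := (1 / 2 : ℝ) ^ (1 / (8 * m) : ℝ) with hρ1
  set ρ2 : ℝ := θ ^ (1 / (2 * m) : ℝ) with hρ2
  have h10 : 0 < ρ1 := Real.rpow_pos_of_pos (by norm_num) _
  have h11 : ρ1 < 1 := Real.rpow_lt_one (by norm_num) (by norm_num) (by positivity)
  have h20 : 0 < ρ2 := Real.rpow_pos_of_pos hθ0 _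
  have h21 : ρ2 < 1 := Real.rpow_lt_one hθ0.le hθ1 (by positivity)
  refine ⟨max ρ1 ρ2, lt_max_of_lt_left h10, max_lt h11 h21, ?_⟩
  intro R _ hR ι _ _ D hD hvars Acc A hA hfree
  have hι : Nonempty ι := by
    have : D.vars.Nonempty := by
      clear hvars hA hD
      induction D with
      | leaf i f => exact ⟨i, by simp [Dev.vars]⟩
      | node g l r ihl ihr => exact ihl.mono Finset.subset_union_left
    exact ⟨this.choose⟩
  rcases le_or_gt (2 * m) (Fintype.card ι) with hn | hn
  · obtain ⟨s, hs1, hs2⟩ := h R hR ι D hD Acc A hA hfree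
    rw [hvars, Finset.card_univ] at hs1
    refine hs2.trans ?_
    refine le_trans ?_ (pow_le_pow_left₀ h10.le (le_max_left ρ1 ρ2) _)
    rw [hρ1, ← Real.rpow_natCast, ← Real.rpow_natCast, ← Real.rpow_mul (by norm_num)]
    apply Real.rpow_le_rpow_of_exponent_ge (by norm_num) (by norm_num)
    have h3 : Fintype.card ι ≤ 8 * m * s := by
      have : 4 * m * s + 4 * m * s = 8 * m * s := by ring
      omega
    have h4 : (Fintype.card ι : ℝ) ≤ 8 * m * s := by exact_mod_cast h3
    rw [div_mul_eq_mul_div, one_mul, div_le_iff₀ (by positivity)]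
    linarith
  · have h5 := dens_lt_of_lineFree A hfree
    have hn1 : 1 ≤ Fintype.card ι := Fintype.card_pos
    refine le_trans ?_ (pow_le_pow_left₀ h20.le (le_max_right ρ1 ρ2) _)
    have h6 : dens A ≤ θ := by
      refine h5.trans ?_
      rw [hθ]
      have h7 : 1 / q ^ (2 * m) ≤ 1 / q ^ (Fintype.card ι) := by
        apply one_div_le_one_div_of_le (by positivity)
        exact pow_le_pow_right₀ (by linarith) hn.le
      linarith
    refine h6.trans ?_
    rw [hρ2, ← Real.rpow_natCast, ← Real.rpow_mul hθ0.le]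
    calc θ = θ ^ (1 : ℝ) := (Real.rpow_one θ).symm
      _ ≤ θ ^ (1 / (2 * m) * (Fintype.card ι : ℝ)) := by
        apply Real.rpow_le_rpow_of_exponent_ge hθ0 hθ1.le
        rw [div_mul_eq_mul_div, one_mul, div_le_one (by positivity)]
        exact_mod_cast hn.le

end Pool.Agent.R756.TD
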