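import Pool.Agent.R756.TD.Core

/-!
Tree-like devices which read every coordinate once: many disjoint blocks with few types.
-/

set_option autoImplicit false

namespace Pool.Agent.R756.TD

/-- A tree-like device: the leaves read one coordinate each and send a message in `R`, every inner
node combines the two messages which it receives. -/
inductive Dev (ι α R : Type) : Type
  | leaf (i : ι) (f : α → R) : Dev ι α R
  | node (g : R → R → R) (l r : Dev ι α R) : Dev ι α R

variable {ι α R : Type}

/-- the message sent by the root -/
def Dev.eval : Dev ι α R → (ι → α) → R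
  | .leaf i f, x => f (x i)
  | .node g l r, x => g (l.eval x) (r.eval x)

section

variable [DecidableEq ι]

/-- the coordinates read at the leaves -/
def Dev.vars : Dev ι α R → Finset ι
  | .leaf i _ => {i}
  | .node _ l r => l.vars ∪ r.vars

/-- no coordinate is read at two leaves -/
def Dev.ReadOnce : Dev ι α R → Prop
  | .leaf _ _ => True
  | .node _ l r => Disjoint l.vars r.vars ∧ l.ReadOnce ∧ r.ReadOnce

/-- the function depends only on the coordinates in `B` -/
def Local {Y : Type} (B : Finset ι) (f : (ι → α) → Y) : Prop :=
  ∀ x y : ι → α, (∀ i ∈ B, x i = y i) → f x = f y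

omit [DecidableEq ι] in
lemma Local.mono {Y : Type} {B C : Finset ι} {f : (ι → α) → Y} (h : Local B f) (hBC : B ⊆ C) :
    Local C f := fun x y hxy => h x y fun i hi => hxy i (hBC hi)

lemma eval_local (D : Dev ι α R) : Local D.vars D.eval := by
  induction D with
  | leaf i f =>
    intro x y h
    simp only [Dev.eval]
    rw [h i (by simp [Dev.vars])]
  | node g l r ihl ihr =>
    intro x y h
    simp only [Dev.eval]
    rw [ihl x y fun i hi => h i (by simp [Dev.vars, hi]),
      ihr x y fun i hi => h i (by simp [Dev.vars, hi])]

/-- the state of the construction -/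
structure St (m K : ℕ) (D : Dev ι α R) (L : List (Finset ι × ((ι → α) → R → R)))
    (O : Finset ι) (b j : ℕ) : Prop where
  sub : ∀ p ∈ L, p.1 ⊆ D.vars
  disj : ∀ p ∈ L, Disjoint p.1 O
  big : ∀ p ∈ L, m ≤ p.1.card
  loc : ∀ p ∈ L, Local p.1 p.2
  clo : ∀ p ∈ L, ∀ x y : ι → α, (∀ i, i ∉ p.1 → x i = y i) → p.2 x = p.2 y → D.eval x = D.eval y
  pw : L.Pairwise (fun p q => Disjoint p.1 q.1)
  osub : O ⊆ D.vars
  ocard : O.card < K
  count : D.vars.card ≤ 2 * m * (L.length + b) + O.card
  marks : b + j ≤ L.length
  zero : j = 0 → Local O D.eval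
  one : j = 1 → ∃ (F : (ι → α) → R → R) (ψ : (ι → α) → R), Local O F ∧
    Local (D.vars \ O) ψ ∧ ∀ x, D.eval x = F x (ψ x)

lemma close {m : ℕ} {D : Dev ι α R} {L : List (Finset ι × ((ι → α) → R → R))}
    {O : Finset ι} {b j : ℕ} (h : St m (2 * m) D L O b j) (hm : 0 < m) :
    ∃ L' O' b' j', St m m D L' O' b' j' := by
  rcases lt_or_ge O.card m with h1 | h1
  · exact ⟨L, O, b, j, h.sub, h.disj, h.big, h.loc, h.clo, h.pw, h.osub, h1, h.count, h.marks,
      h.zero, h.one⟩
  -- closing with a given type function
  have key : ∀ τ : (ι → α) → R → R, Local O τ →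
      (∀ x y : ι → α, (∀ i, i ∉ O → x i = y i) → τ x = τ y → D.eval x = D.eval y) →
      ∃ L' O' b' j', St m m D L' O' b' j' := by
    intro τ hτ hclo
    refine ⟨(O, τ) :: L, ∅, b, 1, ?_⟩
    refine ⟨?_, ?_, ?_, ?_, ?_, ?_, by simp, by simpa using hm, ?_, ?_, by simp, ?_⟩
    · intro p hp
      rcases List.mem_cons.1 hp with rfl | hp
      · exact h.osub
      · exact h.sub p hp
    · intro p _
      simp
    · intro p hp
      rcases List.mem_cons.1 hp with rfl | hp
      · exact h1
      · exact h.big p hp
    · intro p hp
      rcases List.mem_cons.1 hp with rfl | hp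
      · exact hτ
      · exact h.loc p hp
    · intro p hp
      rcases List.mem_cons.1 hp with rfl | hp
      · exact hclo
      · exact h.clo p hp
    · rw [List.pairwise_cons]
      exact ⟨fun q hq => (h.disj q hq).symm, h.pw⟩
    · have h2 := h.count
      have h3 := h.ocard
      simp only [List.length_cons, Finset.card_empty, add_zero]
      nlinarith
    · have h2 := h.marks
      simp only [List.length_cons]
      omega
    · intro _
      refine ⟨fun _ q => q, D.eval, fun _ _ _ => rfl, ?_, fun _ => rfl⟩
      rw [Finset.sdiff_empty]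
      exact eval_local D
  rcases Nat.eq_zero_or_pos j with hj | hj
  · refine key (fun x _ => D.eval x) ?_ ?_
    · intro x y hxy
      funext _
      exact h.zero hj x y hxy
    · intro x y _ hxy
      exact congrFun hxy (D.eval x)
  rcases Nat.lt_or_ge j 2 with hj2 | hj2
  · obtain ⟨F, ψ, hF, hψ, hev⟩ := h.one (by omega)
    refine key F hF ?_
    intro x y hxy hFxy
    rw [hev x, hev y, hFxy]
    congr 1
    apply hψ
    intro i hi
    exact hxy i (Finset.mem_sdiff.1 hi).2
  · refine ⟨L, ∅, b + 1, 1, h.sub, fun p _ => by simp, h.big, h.loc, h.clo, h.pw, by simp,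
      by simpa using hm, ?_, ?_, by simp, ?_⟩
    · have h2 := h.count
      have h3 := h.ocard
      simp only [Finset.card_empty, add_zero]
      nlinarith
    · have h2 := h.marks
      omega
    · intro _
      refine ⟨fun _ q => q, D.eval, fun _ _ _ => rfl, ?_, fun _ => rfl⟩
      rw [Finset.sdiff_empty]
      exact eval_local D

theorem blocks {m : ℕ} (hm : 2 ≤ m) (D : Dev ι α R) (hD : D.ReadOnce) :
    ∃ L O b j, St m m D L O b j := by
  induction D with
  | leaf i f =>
    refine ⟨[], {i}, 0, 0, by simp, by simp, by simp, by simp, by simp, List.Pairwise.nil, ?_, ?_,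
      ?_, by simp, ?_, by simp⟩
    · simp [Dev.vars]
    · simp only [Finset.card_singleton]
      omega
    · simp [Dev.vars]
    · intro _
      exact eval_local (Dev.leaf i f)
  | node g l r ihl ihr =>
    obtain ⟨hdis, hl, hr⟩ := hD
    obtain ⟨L1, O1, b1, j1, h1⟩ := ihl hl
    obtain ⟨L2, O2, b2, j2, h2⟩ := ihr hr
    have hO1r : Disjoint O1 r.vars := hdis.mono_left h1.osub
    have hO2l : Disjoint l.vars O2 := hdis.mono_right h2.osub
    have hO12 : Disjoint O1 O2 := hO1r.mono_right h2.osub
    refine close (L := L1 ++ L2) (O := O1 ∪ O2) (b := b1 + b2) (j := j1 + j2) ?_ (by omega)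
    refine ⟨?_, ?_, ?_, ?_, ?_, ?_, ?_, ?_, ?_, ?_, ?_, ?_⟩
    · intro p hp
      rcases List.mem_append.1 hp with hp | hp
      · exact (h1.sub p hp).trans Finset.subset_union_left
      · exact (h2.sub p hp).trans Finset.subset_union_right
    · intro p hp
      rw [Finset.disjoint_union_right]
      rcases List.mem_append.1 hp with hp | hp
      · exact ⟨h1.disj p hp, hO2l.mono_left (h1.sub p hp)⟩
      · exact ⟨(hO1r.mono_right (h2.sub p hp)).symm, h2.disj p hp⟩
    · intro p hp
      rcases List.mem_append.1 hp with hp | hp
      · exact h1.big p hp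
      · exact h2.big p hp
    · intro p hp
      rcases List.mem_append.1 hp with hp | hp
      · exact h1.loc p hp
      · exact h2.loc p hp
    · intro p hp x y hxy hτ
      simp only [Dev.eval]
      rcases List.mem_append.1 hp with hp | hp
      · rw [h1.clo p hp x y hxy hτ, eval_local r x y]
        intro i hi
        apply hxy
        intro hip
        exact Finset.disjoint_left.1 hdis (h1.sub p hp hip) hi
      · rw [h2.clo p hp x y hxy hτ, eval_local l x y]
        intro i hi
        apply hxy
        intro hip
        exact Finset.disjoint_left.1 hdis hi (h2.sub p hp hip)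
    · rw [List.pairwise_append]
      refine ⟨h1.pw, h2.pw, fun p hp q hq => ?_⟩
      exact (hdis.mono_left (h1.sub p hp)).mono_right (h2.sub q hq)
    · exact Finset.union_subset_union h1.osub h2.osub
    · refine lt_of_le_of_lt (Finset.card_union_le _ _) ?_
      have := h1.ocard
      have := h2.ocard
      omega
    · have e1 : (Dev.node g l r).vars.card = l.vars.card + r.vars.card :=
        Finset.card_union_of_disjoint hdis
      have e2 : (O1 ∪ O2).card = O1.card + O2.card := Finset.card_union_of_disjoint hO12
      have c1 := h1.count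
      have c2 := h2.count
      rw [e1, e2, List.length_append]
      nlinarith
    · have c1 := h1.marks
      have c2 := h2.marks
      rw [List.length_append]
      omega
    · intro hj x y hxy
      simp only [Dev.eval]
      rw [h1.zero (by omega) x y fun i hi => hxy i (Finset.mem_union_left _ hi),
        h2.zero (by omega) x y fun i hi => hxy i (Finset.mem_union_right _ hi)]
    · intro hj
      rcases Nat.eq_zero_or_pos j2 with hj2 | hj2
      · obtain ⟨F, ψ, hF, hψ, hev⟩ := h1.one (by omega)
        have hz := h2.zero hj2
        refine ⟨fun x q => g (F x q) (r.eval x), ψ, ?_, ?_, ?_⟩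
        · intro x y hxy
          funext q
          show g (F x q) (r.eval x) = g (F y q) (r.eval y)
          rw [hF x y fun i hi => hxy i (Finset.mem_union_left _ hi),
            hz x y fun i hi => hxy i (Finset.mem_union_right _ hi)]
        · refine hψ.mono ?_
          intro i hi
          rw [Finset.mem_sdiff] at hi ⊢
          refine ⟨Finset.mem_union_left _ hi.1, ?_⟩
          rw [Finset.mem_union]
          rintro (h | h)
          · exact hi.2 h
          · exact Finset.disjoint_left.1 hO2l hi.1 h
        · intro x
          simp only [Dev.eval]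
          rw [hev x]
      · obtain ⟨F, ψ, hF, hψ, hev⟩ := h2.one (by omega)
        have hz := h1.zero (by omega)
        refine ⟨fun x q => g (l.eval x) (F x q), ψ, ?_, ?_, ?_⟩
        · intro x y hxy
          funext q
          show g (l.eval x) (F x q) = g (l.eval y) (F y q)
          rw [hF x y fun i hi => hxy i (Finset.mem_union_right _ hi),
            hz x y fun i hi => hxy i (Finset.mem_union_left _ hi)]
        · refine hψ.mono ?_
          intro i hi
          rw [Finset.mem_sdiff] at hi ⊢
          refine ⟨Finset.mem_union_right _ hi.1, ?_⟩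
          rw [Finset.mem_union]
          rintro (h | h)
          · exact Finset.disjoint_left.1 hO1r h hi.1
          · exact hi.2 h
        · intro x
          simp only [Dev.eval]
          rw [hev x]

end

end Pool.Agent.R756.TD
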